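import Pool.Agent.Helper76.P13.StC

/-!
# Project P13 (levels `13^n`), module TYP: maps of the plane and their types

Adapted from `Pool/Agent/Helper80/P11/M_TYP.lean`, `Pool/Agent/Helper42/S7/M_Typ.lean`.
-/

set_option autoImplicit false

namespace Pool.Agent.Helper72.P13

open Pool.Agent.Helper76.P13

private theorem unit13 {m : ℕ} (a : ℤ) (ha : ¬ (13 : ℤ) ∣ a) (z : ZMod (13 ^ m)) :
    IsUnit ((a : ZMod (13 ^ m)) + 13 * z) := by
  obtain ⟨k, rfl⟩ := ZMod.intCast_surjective z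
  have h7 : Prime (13 : ℤ) := by norm_num
  have h1 : IsCoprime (13 : ℤ) (a + 13 * k) := by
    refine (Irreducible.coprime_iff_not_dvd h7.irreducible).mpr fun h => ha ?_
    exact (dvd_add_left (dvd_mul_right 13 k)).mp h
  obtain ⟨u, v, huv⟩ := h1.pow_left (m := m)
  refine IsUnit.of_mul_eq_one ((v : ZMod (13 ^ m))) ?_
  have h2 := congrArg (Int.cast : ℤ → ZMod (13 ^ m)) huv
  push_cast at h2
  have h3 : (13 : ZMod (13 ^ m)) ^ m = 0 := by
    have := ZMod.natCast_self (13 ^ m)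
    push_cast at this
    exact this
  rw [h3] at h2
  linear_combination h2

private theorem unitA (μ : ℕ) {m : ℕ} (a c : ℤ) (ha : ¬ (13 : ℤ) ∣ a) (x : ZMod (13 ^ m)) :
    IsUnit ((a : ZMod (13 ^ m)) + 13 ^ (μ + 1) * c * x) := by
  have h := unit13 (m := m) a ha (13 ^ μ * c * x)
  have e : (a : ZMod (13 ^ m)) + 13 * (13 ^ μ * c * x) = (a : ZMod (13 ^ m)) + 13 ^ (μ + 1) * c * x := by
    ring
  rwa [e] at h

private theorem frac_eq {n : ℕ} {x y s t : ZMod n} (hs : IsUnit s) (ht : IsUnit t)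
    (h : x * t = y * s) : x * s⁻¹ = y * t⁻¹ := by
  have h1 := ZMod.mul_inv_of_unit s hs
  have h2 := ZMod.mul_inv_of_unit t ht
  linear_combination (x * s⁻¹) * (-h2) + (y * t⁻¹) * h1 + s⁻¹ * t⁻¹ * h

/-- The fraction in the definition of `trp`. -/
private noncomputable def mob (μ : ℕ) {m : ℕ} (a b c d : ℤ) (t : ZMod (13 ^ m)) : ZMod (13 ^ m) :=
  ((b : ZMod (13 ^ m)) + d * t) * ((a : ZMod (13 ^ m)) + 13 ^ (μ + 1) * c * t)⁻¹

private theorem trp_eq (μ : ℕ) {m : ℕ} (a b c d : ℤ) (p : Pt m) :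
    trp μ a b c d p = (mob μ a b c d p.1, mob μ d c b a p.2) := rfl

private theorem mob_mob (μ : ℕ) {m : ℕ} (a b c d a' b' c' d' : ℤ) (ha : ¬ (13 : ℤ) ∣ a)
    (ha' : ¬ (13 : ℤ) ∣ a') (hA : ¬ (13 : ℤ) ∣ a * a' + 13 ^ (μ + 1) * b * c') (t : ZMod (13 ^ m)) :
    mob μ a' b' c' d' (mob μ a b c d t) =
      mob μ (a * a' + 13 ^ (μ + 1) * b * c') (a * b' + b * d') (c * a' + d * c')
        (13 ^ (μ + 1) * c * b' + d * d') t := by
  have h1 := ZMod.mul_inv_of_unit _ (unitA μ a c ha t)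
  refine frac_eq (unitA μ a' c' ha' _) (unitA μ _ _ hA t) ?_
  unfold mob
  push_cast
  linear_combination (d' * ((b : ZMod (13 ^ m)) + d * t) * a' -
    b' * (13 ^ (μ + 1) * c' * ((b : ZMod (13 ^ m)) + d * t))) * h1

private theorem mob_neg (μ : ℕ) {m : ℕ} (a b c d : ℤ) (ha : ¬ (13 : ℤ) ∣ a) (t : ZMod (13 ^ m)) :
    mob μ (-a) (-b) (-c) (-d) t = mob μ a b c d t := by
  have ha' : ¬ (13 : ℤ) ∣ -a := fun h => ha ((dvd_neg).mp h)
  refine frac_eq (unitA μ (-a) (-c) ha' t) (unitA μ a c ha t) ?_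
  push_cast
  ring

private theorem mob_id (μ : ℕ) {m : ℕ} (t : ZMod (13 ^ m)) : mob μ 1 0 0 1 t = t := by
  unfold mob
  simp

private theorem mob_arg_neg (μ : ℕ) {m : ℕ} (a b c d : ℤ) (t : ZMod (13 ^ m)) :
    mob μ a b c d (-t) = mob μ a b (-c) (-d) t := by
  unfold mob
  push_cast
  ring_nf

private theorem neg_mob (μ : ℕ) {m : ℕ} (a b c d : ℤ) (t : ZMod (13 ^ m)) :
    -mob μ a b c d t = mob μ a (-b) c (-d) t := by
  unfold mob
  push_cast
  ring_nf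

private theorem dv_mob (μ : ℕ) {m : ℕ} (a b c d s : ℤ) (ha : ¬ (13 : ℤ) ∣ a)
    (hs : (13 : ℤ) ∣ a * d - 13 ^ (μ + 1) * b * c - s * a ^ 2) :
    Dv s (mob μ a b c d : ZMod (13 ^ m) → ZMod (13 ^ m)) := by
  intro i x x' hx
  obtain ⟨k, hk⟩ := hx
  obtain ⟨q, hq⟩ := hs
  have hq' := congrArg (Int.cast : ℤ → ZMod (13 ^ m)) hq
  push_cast at hq'
  have h := ZMod.mul_inv_of_unit _ (unitA μ a c ha x)
  have h' := ZMod.mul_inv_of_unit _ (unitA μ a c ha x')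
  unfold mob
  set v := ((a : ZMod (13 ^ m)) + 13 ^ (μ + 1) * c * x)⁻¹ with hv
  set v' := ((a : ZMod (13 ^ m)) + 13 ^ (μ + 1) * c * x')⁻¹ with hv'
  refine ⟨k * v * v' * (q - s * (13 ^ μ * c * x * a + 13 ^ μ * c * x' * a +
    13 ^ μ * 13 ^ (μ + 1) * c ^ 2 * x * x')), ?_⟩
  linear_combination (((b : ZMod (13 ^ m)) + d * x') * v' + s * (x - x')) * h +
    (-((b : ZMod (13 ^ m)) + d * x) * v +
      s * (x - x') * (((a : ZMod (13 ^ m)) + 13 ^ (μ + 1) * c * x) * v)) * h' +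
    v * v' * ((a * d - 13 ^ (μ + 1) * b * c) - s * (((a : ZMod (13 ^ m)) + 13 ^ (μ + 1) * c * x) *
      ((a : ZMod (13 ^ m)) + 13 ^ (μ + 1) * c * x'))) * hk + 13 ^ i * k * v * v' * hq'

private theorem dv_neg {m : ℕ} : Dv (-1) (fun x : ZMod (13 ^ m) => -x) := by
  intro i x x' _
  refine ⟨0, ?_⟩
  push_cast
  ring

private theorem dv_id {m : ℕ} : Dv 1 (fun x : ZMod (13 ^ m) => x) := by
  intro i x x' _
  refine ⟨0, ?_⟩
  push_cast
  ring

private theorem ty0 {m : ℕ} (r : Pt m → Pt m) (μ : ℕ) (s s' : ℤ) (a b c d a' b' c' d' : ℤ)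
    (ha : ¬ (13 : ℤ) ∣ a) (ha' : ¬ (13 : ℤ) ∣ a') (h1 : ¬ (13 : ℤ) ∣ s) (h2 : ¬ (13 : ℤ) ∣ s - 1)
    (h3 : ¬ (13 : ℤ) ∣ s') (h4 : ¬ (13 : ℤ) ∣ s' - 1)
    (hs : (13 : ℤ) ∣ a * d - 13 ^ (μ + 1) * b * c - s * a ^ 2)
    (hs' : (13 : ℤ) ∣ a' * d' - 13 ^ (μ + 1) * b' * c' - s' * a' ^ 2)
    (h : ∀ p : Pt m, r p = (mob μ a b c d p.1, mob μ a' b' c' d' p.2)) : Ty 0 r :=
  Or.inl ⟨rfl, s, s', _, _, h1, h2, h3, h4, dv_mob μ a b c d s ha hs,
    dv_mob μ a' b' c' d' s' ha' hs', h⟩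

private theorem tyw {m : ℕ} (r : Pt m → Pt m) (μ : ℕ) (s s' : ℤ) (a b c d a' b' c' d' : ℤ)
    (ha : ¬ (13 : ℤ) ∣ a) (ha' : ¬ (13 : ℤ) ∣ a') (h1 : ¬ (13 : ℤ) ∣ s) (h3 : ¬ (13 : ℤ) ∣ s')
    (hs : (13 : ℤ) ∣ a * d - 13 ^ (μ + 1) * b * c - s * a ^ 2)
    (hs' : (13 : ℤ) ∣ a' * d' - 13 ^ (μ + 1) * b' * c' - s' * a' ^ 2)
    (h : ∀ p : Pt m, r p = (mob μ a b c d p.1, mob μ a' b' c' d' p.2)) : Tw r :=
  ⟨s, s', _, _, h1, h3, dv_mob μ a b c d s ha hs, dv_mob μ a' b' c' d' s' ha' hs', h⟩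

private theorem ty1 {m : ℕ} (r : Pt m → Pt m) (μ : ℕ) (s s' : ℤ) (a b c d a' b' c' d' : ℤ)
    (ha : ¬ (13 : ℤ) ∣ a) (ha' : ¬ (13 : ℤ) ∣ a') (h1 : ¬ (13 : ℤ) ∣ s) (h3 : ¬ (13 : ℤ) ∣ s')
    (hs : (13 : ℤ) ∣ a * d - 13 ^ (μ + 1) * b * c - s * a ^ 2)
    (hs' : (13 : ℤ) ∣ a' * d' - 13 ^ (μ + 1) * b' * c' - s' * a' ^ 2)
    (h : ∀ p : Pt m, r p = (mob μ a b c d p.2, mob μ a' b' c' d' p.1)) : Ty 1 r :=
  Or.inr ⟨rfl, s, s', _, _, h1, h3, dv_mob μ a b c d s ha hs, dv_mob μ a' b' c' d' s' ha' hs', h⟩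

/-- Composition of two fractional linear maps, up to the scalar `k`. -/
private theorem mm (μ : ℕ) (k : ℤ) {m : ℕ} (a b c d a' b' c' d' A B C D : ℤ) (ha : ¬ (13 : ℤ) ∣ a)
    (ha' : ¬ (13 : ℤ) ∣ a') (hA : ¬ (13 : ℤ) ∣ A) (hk : ¬ (13 : ℤ) ∣ k)
    (h1 : a * a' + 13 ^ (μ + 1) * b * c' = k * A) (h2 : a * b' + b * d' = k * B)
    (h3 : c * a' + d * c' = k * C) (h4 : 13 ^ (μ + 1) * c * b' + d * d' = k * D) (t : ZMod (13 ^ m)) :
    mob μ a' b' c' d' (mob μ a b c d t) = mob μ A B C D t := by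
  have h5 : Prime (13 : ℤ) := by norm_num
  have hkA : ¬ (13 : ℤ) ∣ k * A := fun h => (h5.dvd_or_dvd h).elim hk hA
  rw [mob_mob μ a b c d a' b' c' d' ha ha' (by rw [h1]; exact hkA) t, h1, h2, h3, h4]
  refine frac_eq (unitA μ _ _ hkA t) (unitA μ A C hA t) ?_
  push_cast
  ring

private theorem dR_eq (μ : ℕ) {m : ℕ} (p : Pt m) :
    dR μ p = (mob μ 1 (-1) 0 (-1) p.1, mob μ 1 0 1 (-1) p.2) := by
  show (mob μ 1 (-1) 0 1 (-p.1), mob μ 1 0 (-1) 1 (-p.2)) = _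
  rw [mob_arg_neg, mob_arg_neg]
  norm_num

private theorem dRdR (μ : ℕ) {m : ℕ} (p : Pt m) : dR μ (dR μ p) = p := by
  rw [dR_eq, dR_eq]
  refine Prod.ext ?_ ?_
  · show mob μ 1 (-1) 0 (-1) (mob μ 1 (-1) 0 (-1) p.1) = p.1
    rw [mob_mob _ _ _ _ _ _ _ _ _ (by norm_num) (by norm_num) (by norm_num)]
    norm_num [mob_id]
  · show mob μ 1 0 1 (-1) (mob μ 1 0 1 (-1) p.2) = p.2
    rw [mob_mob _ _ _ _ _ _ _ _ _ (by norm_num) (by norm_num) (by norm_num)]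
    norm_num [mob_id]

private theorem cO_eq {m : ℕ} (p : Pt m) :
    cO p = (mob 0 2 (-1) 1 (-6) p.2, mob 0 (-6) 1 (-1) 2 p.1) := rfl

private theorem c3_eq {m : ℕ} (p : Pt m) :
    c3 p = (mob 0 3 (-1) 1 (-4) p.2, mob 0 (-4) 1 (-1) 3 p.1) := rfl

private theorem c6_eq {m : ℕ} (p : Pt m) :
    c6 p = (mob 1 2 (-1) 1 (-84) p.2, mob 1 (-84) 1 (-1) 2 p.1) := rfl

private theorem cT_eq {m : ℕ} (p : Pt m) :
    cT p = (mob 1 8 (-1) 1 (-21) p.2, mob 1 (-21) 1 (-1) 8 p.1) := rfl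

private theorem cU_eq {m : ℕ} (p : Pt m) :
    cU p = (mob 1 7 (-1) 1 (-24) p.2, mob 1 (-24) 1 (-1) 7 p.1) := rfl

private theorem c9_eq {m : ℕ} (p : Pt m) :
    c9 p = (mob 1 3 (-1) 1 (-56) p.2, mob 1 (-56) 1 (-1) 3 p.1) := rfl

private theorem cM_eq {m : ℕ} (p : Pt m) :
    cM p = (mob 1 16 (-3) 3 (-95) p.2, mob 1 (-95) 3 (-3) 16 p.1) := rfl

private theorem cC_eq {m : ℕ} (p : Pt m) :
    cC p = (mob 1 4 (-1) 1 (-42) p.2, mob 1 (-42) 1 (-1) 4 p.1) := rfl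

private theorem cD_eq {m : ℕ} (p : Pt m) :
    cD p = (mob 1 6 (-1) 1 (-28) p.2, mob 1 (-28) 1 (-1) 6 p.1) := rfl

private theorem rA_eq {m : ℕ} (p : Pt m) :
    rA p = (mob 1 5 (-1) 1 (-34) p.2, mob 1 34 (-1) 1 (-5) p.1) := by
  show (mob 1 5 (-1) (-1) 34 (-p.2), mob 1 34 (-1) (-1) 5 (-p.1)) = _
  rw [mob_arg_neg, mob_arg_neg]
  norm_num

private theorem rB_eq {m : ℕ} (p : Pt m) :
    rB p = (mob 1 10 (-1) 1 (-17) p.2, mob 1 17 (-1) 1 (-10) p.1) := by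
  show (mob 1 10 (-1) (-1) 17 (-p.2), mob 1 17 (-1) (-1) 10 (-p.1)) = _
  rw [mob_arg_neg, mob_arg_neg]
  norm_num

private theorem cQ_eq {m : ℕ} (p : Pt m) :
    cQ p = (mob 1 5 (-2) 2 (-135) p.2, mob 1 (-135) 2 (-2) 5 p.1) := rfl

private theorem cR_eq {m : ℕ} (p : Pt m) :
    cR p = (mob 1 12 (-5) 5 (-352) p.2, mob 1 (-352) 5 (-5) 12 p.1) := rfl

private theorem gM_eq {m : ℕ} (p : Pt m) :
    gM p = (mob 1 31 (-11) 1 (-60) p.1, mob 1 60 (-1) 11 (-31) p.2) := by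
  show (mob 1 31 (-11) (-1) 60 (-p.1), mob 1 60 (-1) (-11) 31 (-p.2)) = _
  rw [mob_arg_neg, mob_arg_neg]
  norm_num

private theorem gB_eq {m : ℕ} (p : Pt m) :
    gB p = (mob 1 18 (-5) 1 (-47) p.1, mob 1 47 (-1) 5 (-18) p.2) := by
  show (mob 1 18 (-5) (-1) 47 (-p.1), mob 1 47 (-1) (-5) 18 (-p.2)) = _
  rw [mob_arg_neg, mob_arg_neg]
  norm_num

private theorem gF_eq {m : ℕ} (p : Pt m) :
    gF p = (mob 1 9 (-1) 4 (-75) p.2, mob 1 (-75) 4 (-1) 9 p.1) := rfl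

private theorem cO_inv {m : ℕ} (p : Pt m) : cO (cO p) = p := by
  rw [cO_eq, cO_eq]
  exact Prod.ext ((mm _ 1 _ _ _ _ _ _ _ _ 1 0 0 1 (by norm_num) (by norm_num) (by norm_num) (by norm_num) (by norm_num) (by norm_num) (by norm_num) (by norm_num) _).trans (mob_id _ _))
    ((mm _ 1 _ _ _ _ _ _ _ _ 1 0 0 1 (by norm_num) (by norm_num) (by norm_num) (by norm_num) (by norm_num) (by norm_num) (by norm_num) (by norm_num) _).trans (mob_id _ _))

private theorem c3_inv {m : ℕ} (p : Pt m) : c3 (c3 p) = p := by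
  rw [c3_eq, c3_eq]
  exact Prod.ext ((mm _ 1 _ _ _ _ _ _ _ _ 1 0 0 1 (by norm_num) (by norm_num) (by norm_num) (by norm_num) (by norm_num) (by norm_num) (by norm_num) (by norm_num) _).trans (mob_id _ _))
    ((mm _ 1 _ _ _ _ _ _ _ _ 1 0 0 1 (by norm_num) (by norm_num) (by norm_num) (by norm_num) (by norm_num) (by norm_num) (by norm_num) (by norm_num) _).trans (mob_id _ _))

private theorem c6_inv {m : ℕ} (p : Pt m) : c6 (c6 p) = p := by
  rw [c6_eq, c6_eq]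
  exact Prod.ext ((mm _ 1 _ _ _ _ _ _ _ _ 1 0 0 1 (by norm_num) (by norm_num) (by norm_num) (by norm_num) (by norm_num) (by norm_num) (by norm_num) (by norm_num) _).trans (mob_id _ _))
    ((mm _ 1 _ _ _ _ _ _ _ _ 1 0 0 1 (by norm_num) (by norm_num) (by norm_num) (by norm_num) (by norm_num) (by norm_num) (by norm_num) (by norm_num) _).trans (mob_id _ _))

private theorem cT_inv {m : ℕ} (p : Pt m) : cT (cT p) = p := by
  rw [cT_eq, cT_eq]
  exact Prod.ext ((mm _ 1 _ _ _ _ _ _ _ _ 1 0 0 1 (by norm_num) (by norm_num) (by norm_num) (by norm_num) (by norm_num) (by norm_num) (by norm_num) (by norm_num) _).trans (mob_id _ _))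
    ((mm _ 1 _ _ _ _ _ _ _ _ 1 0 0 1 (by norm_num) (by norm_num) (by norm_num) (by norm_num) (by norm_num) (by norm_num) (by norm_num) (by norm_num) _).trans (mob_id _ _))

private theorem cU_inv {m : ℕ} (p : Pt m) : cU (cU p) = p := by
  rw [cU_eq, cU_eq]
  exact Prod.ext ((mm _ 1 _ _ _ _ _ _ _ _ 1 0 0 1 (by norm_num) (by norm_num) (by norm_num) (by norm_num) (by norm_num) (by norm_num) (by norm_num) (by norm_num) _).trans (mob_id _ _))
    ((mm _ 1 _ _ _ _ _ _ _ _ 1 0 0 1 (by norm_num) (by norm_num) (by norm_num) (by norm_num) (by norm_num) (by norm_num) (by norm_num) (by norm_num) _).trans (mob_id _ _))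

private theorem cM_inv {m : ℕ} (p : Pt m) : cM (cM p) = p := by
  rw [cM_eq, cM_eq]
  exact Prod.ext ((mm _ 1 _ _ _ _ _ _ _ _ 1 0 0 1 (by norm_num) (by norm_num) (by norm_num) (by norm_num) (by norm_num) (by norm_num) (by norm_num) (by norm_num) _).trans (mob_id _ _))
    ((mm _ 1 _ _ _ _ _ _ _ _ 1 0 0 1 (by norm_num) (by norm_num) (by norm_num) (by norm_num) (by norm_num) (by norm_num) (by norm_num) (by norm_num) _).trans (mob_id _ _))

private theorem cC_inv {m : ℕ} (p : Pt m) : cC (cC p) = p := by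
  rw [cC_eq, cC_eq]
  exact Prod.ext ((mm _ 1 _ _ _ _ _ _ _ _ 1 0 0 1 (by norm_num) (by norm_num) (by norm_num) (by norm_num) (by norm_num) (by norm_num) (by norm_num) (by norm_num) _).trans (mob_id _ _))
    ((mm _ 1 _ _ _ _ _ _ _ _ 1 0 0 1 (by norm_num) (by norm_num) (by norm_num) (by norm_num) (by norm_num) (by norm_num) (by norm_num) (by norm_num) _).trans (mob_id _ _))

private theorem cD_inv {m : ℕ} (p : Pt m) : cD (cD p) = p := by
  rw [cD_eq, cD_eq]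
  exact Prod.ext ((mm _ 1 _ _ _ _ _ _ _ _ 1 0 0 1 (by norm_num) (by norm_num) (by norm_num) (by norm_num) (by norm_num) (by norm_num) (by norm_num) (by norm_num) _).trans (mob_id _ _))
    ((mm _ 1 _ _ _ _ _ _ _ _ 1 0 0 1 (by norm_num) (by norm_num) (by norm_num) (by norm_num) (by norm_num) (by norm_num) (by norm_num) (by norm_num) _).trans (mob_id _ _))

private theorem rA_inv {m : ℕ} (p : Pt m) : rA (rA p) = p := by
  rw [rA_eq, rA_eq]
  exact Prod.ext ((mm _ 1 _ _ _ _ _ _ _ _ 1 0 0 1 (by norm_num) (by norm_num) (by norm_num) (by norm_num) (by norm_num) (by norm_num) (by norm_num) (by norm_num) _).trans (mob_id _ _))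
    ((mm _ 1 _ _ _ _ _ _ _ _ 1 0 0 1 (by norm_num) (by norm_num) (by norm_num) (by norm_num) (by norm_num) (by norm_num) (by norm_num) (by norm_num) _).trans (mob_id _ _))

private theorem rB_inv {m : ℕ} (p : Pt m) : rB (rB p) = p := by
  rw [rB_eq, rB_eq]
  exact Prod.ext ((mm _ 1 _ _ _ _ _ _ _ _ 1 0 0 1 (by norm_num) (by norm_num) (by norm_num) (by norm_num) (by norm_num) (by norm_num) (by norm_num) (by norm_num) _).trans (mob_id _ _))
    ((mm _ 1 _ _ _ _ _ _ _ _ 1 0 0 1 (by norm_num) (by norm_num) (by norm_num) (by norm_num) (by norm_num) (by norm_num) (by norm_num) (by norm_num) _).trans (mob_id _ _))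

private theorem cQ_inv {m : ℕ} (p : Pt m) : cQ (cQ p) = p := by
  rw [cQ_eq, cQ_eq]
  exact Prod.ext ((mm _ 1 _ _ _ _ _ _ _ _ 1 0 0 1 (by norm_num) (by norm_num) (by norm_num) (by norm_num) (by norm_num) (by norm_num) (by norm_num) (by norm_num) _).trans (mob_id _ _))
    ((mm _ 1 _ _ _ _ _ _ _ _ 1 0 0 1 (by norm_num) (by norm_num) (by norm_num) (by norm_num) (by norm_num) (by norm_num) (by norm_num) (by norm_num) _).trans (mob_id _ _))

private theorem cR_inv {m : ℕ} (p : Pt m) : cR (cR p) = p := by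
  rw [cR_eq, cR_eq]
  exact Prod.ext ((mm _ 1 _ _ _ _ _ _ _ _ 1 0 0 1 (by norm_num) (by norm_num) (by norm_num) (by norm_num) (by norm_num) (by norm_num) (by norm_num) (by norm_num) _).trans (mob_id _ _))
    ((mm _ 1 _ _ _ _ _ _ _ _ 1 0 0 1 (by norm_num) (by norm_num) (by norm_num) (by norm_num) (by norm_num) (by norm_num) (by norm_num) (by norm_num) _).trans (mob_id _ _))

private theorem dRcO {m : ℕ} (p : Pt m) :
    dR 0 (cO p) = (mob 0 2 (-1) 1 (-7) p.2, mob 0 7 (-1) 1 (-2) p.1) := by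
  rw [cO_eq, dR_eq]
  exact Prod.ext (mm _ 1 _ _ _ _ _ _ _ _ _ _ _ _ (by norm_num) (by norm_num) (by norm_num) (by norm_num) (by norm_num) (by norm_num) (by norm_num) (by norm_num) _)
    (mm _ 1 _ _ _ _ _ _ _ _ _ _ _ _ (by norm_num) (by norm_num) (by norm_num) (by norm_num) (by norm_num) (by norm_num) (by norm_num) (by norm_num) _)

private theorem cOdR {m : ℕ} (p : Pt m) :
    cO (dR 0 p) = (mob 0 2 (-1) 1 (-7) p.2, mob 0 7 (-1) 1 (-2) p.1) := by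
  rw [dR_eq, cO_eq]
  exact Prod.ext (mm _ 1 _ _ _ _ _ _ _ _ _ _ _ _ (by norm_num) (by norm_num) (by norm_num) (by norm_num) (by norm_num) (by norm_num) (by norm_num) (by norm_num) _)
    (mm _ 1 _ _ _ _ _ _ _ _ _ _ _ _ (by norm_num) (by norm_num) (by norm_num) (by norm_num) (by norm_num) (by norm_num) (by norm_num) (by norm_num) _)

private theorem dRc6 {m : ℕ} (p : Pt m) :
    dR 1 (c6 p) = (mob 1 2 (-1) 1 (-85) p.2, mob 1 85 (-1) 1 (-2) p.1) := by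
  rw [c6_eq, dR_eq]
  exact Prod.ext (mm _ 1 _ _ _ _ _ _ _ _ _ _ _ _ (by norm_num) (by norm_num) (by norm_num) (by norm_num) (by norm_num) (by norm_num) (by norm_num) (by norm_num) _)
    (mm _ 1 _ _ _ _ _ _ _ _ _ _ _ _ (by norm_num) (by norm_num) (by norm_num) (by norm_num) (by norm_num) (by norm_num) (by norm_num) (by norm_num) _)

private theorem c6dR {m : ℕ} (p : Pt m) :
    c6 (dR 1 p) = (mob 1 2 (-1) 1 (-85) p.2, mob 1 85 (-1) 1 (-2) p.1) := by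
  rw [dR_eq, c6_eq]
  exact Prod.ext (mm _ 1 _ _ _ _ _ _ _ _ _ _ _ _ (by norm_num) (by norm_num) (by norm_num) (by norm_num) (by norm_num) (by norm_num) (by norm_num) (by norm_num) _)
    (mm _ 1 _ _ _ _ _ _ _ _ _ _ _ _ (by norm_num) (by norm_num) (by norm_num) (by norm_num) (by norm_num) (by norm_num) (by norm_num) (by norm_num) _)

private theorem c3cO {m : ℕ} (p : Pt m) :
    c3 (cO p) = (mob 0 5 (-2) 1 (-5) p.1, mob 0 5 (-1) 2 (-5) p.2) := by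
  rw [cO_eq, c3_eq]
  exact Prod.ext (mm _ (-1) _ _ _ _ _ _ _ _ _ _ _ _ (by norm_num) (by norm_num) (by norm_num) (by norm_num) (by norm_num) (by norm_num) (by norm_num) (by norm_num) _)
    (mm _ 1 _ _ _ _ _ _ _ _ _ _ _ _ (by norm_num) (by norm_num) (by norm_num) (by norm_num) (by norm_num) (by norm_num) (by norm_num) (by norm_num) _)

private theorem cOc3 {m : ℕ} (p : Pt m) :
    cO (c3 p) = (mob 0 5 (-2) 1 (-5) p.1, mob 0 5 (-1) 2 (-5) p.2) := by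
  rw [c3_eq, cO_eq]
  exact Prod.ext (mm _ 1 _ _ _ _ _ _ _ _ _ _ _ _ (by norm_num) (by norm_num) (by norm_num) (by norm_num) (by norm_num) (by norm_num) (by norm_num) (by norm_num) _)
    (mm _ (-1) _ _ _ _ _ _ _ _ _ _ _ _ (by norm_num) (by norm_num) (by norm_num) (by norm_num) (by norm_num) (by norm_num) (by norm_num) (by norm_num) _)

private theorem cQcR {m : ℕ} (p : Pt m) :
    cQ (cR p) = (mob 1 70 (-29) 1 (-70) p.1, mob 1 70 (-1) 29 (-70) p.2) := by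
  rw [cR_eq, cQ_eq]
  exact Prod.ext (mm _ (-1) _ _ _ _ _ _ _ _ _ _ _ _ (by norm_num) (by norm_num) (by norm_num) (by norm_num) (by norm_num) (by norm_num) (by norm_num) (by norm_num) _)
    (mm _ 1 _ _ _ _ _ _ _ _ _ _ _ _ (by norm_num) (by norm_num) (by norm_num) (by norm_num) (by norm_num) (by norm_num) (by norm_num) (by norm_num) _)

private theorem cRcQ {m : ℕ} (p : Pt m) :
    cR (cQ p) = (mob 1 70 (-29) 1 (-70) p.1, mob 1 70 (-1) 29 (-70) p.2) := by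
  rw [cQ_eq, cR_eq]
  exact Prod.ext (mm _ 1 _ _ _ _ _ _ _ _ _ _ _ _ (by norm_num) (by norm_num) (by norm_num) (by norm_num) (by norm_num) (by norm_num) (by norm_num) (by norm_num) _)
    (mm _ (-1) _ _ _ _ _ _ _ _ _ _ _ _ (by norm_num) (by norm_num) (by norm_num) (by norm_num) (by norm_num) (by norm_num) (by norm_num) (by norm_num) _)

private theorem swc3 {m : ℕ} (p : Pt m) :
    sw (c3 p) = (mob 0 (-4) 1 (-1) 3 p.1, mob 0 3 (-1) 1 (-4) p.2) := rfl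

private theorem c3sw {m : ℕ} (p : Pt m) :
    c3 (sw p) = (mob 0 3 (-1) 1 (-4) p.1, mob 0 (-4) 1 (-1) 3 p.2) := rfl

private theorem swc3sw {m : ℕ} (p : Pt m) :
    sw (c3 (sw p)) = (mob 0 (-4) 1 (-1) 3 p.2, mob 0 3 (-1) 1 (-4) p.1) := rfl

private theorem c3swc3 {m : ℕ} (p : Pt m) :
    c3 (sw (c3 p)) = (mob 0 (-4) 1 (-1) 3 p.2, mob 0 3 (-1) 1 (-4) p.1) := by
  rw [swc3, c3_eq]
  exact Prod.ext (mm _ 1 _ _ _ _ _ _ _ _ _ _ _ _ (by norm_num) (by norm_num) (by norm_num) (by norm_num) (by norm_num) (by norm_num) (by norm_num) (by norm_num) _)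
    (mm _ 1 _ _ _ _ _ _ _ _ _ _ _ _ (by norm_num) (by norm_num) (by norm_num) (by norm_num) (by norm_num) (by norm_num) (by norm_num) (by norm_num) _)

private theorem cTcU {m : ℕ} (p : Pt m) :
    cT (cU p) = (mob 1 23 (-3) 1 (-22) p.1, mob 1 22 (-1) 3 (-23) p.2) := by
  rw [cU_eq, cT_eq]
  exact Prod.ext (mm _ (-1) _ _ _ _ _ _ _ _ _ _ _ _ (by norm_num) (by norm_num) (by norm_num) (by norm_num) (by norm_num) (by norm_num) (by norm_num) (by norm_num) _)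
    (mm _ 1 _ _ _ _ _ _ _ _ _ _ _ _ (by norm_num) (by norm_num) (by norm_num) (by norm_num) (by norm_num) (by norm_num) (by norm_num) (by norm_num) _)

private theorem cUcT {m : ℕ} (p : Pt m) :
    cU (cT p) = (mob 1 22 (-3) 1 (-23) p.1, mob 1 23 (-1) 3 (-22) p.2) := by
  rw [cT_eq, cU_eq]
  exact Prod.ext (mm _ 1 _ _ _ _ _ _ _ _ _ _ _ _ (by norm_num) (by norm_num) (by norm_num) (by norm_num) (by norm_num) (by norm_num) (by norm_num) (by norm_num) _)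
    (mm _ (-1) _ _ _ _ _ _ _ _ _ _ _ _ (by norm_num) (by norm_num) (by norm_num) (by norm_num) (by norm_num) (by norm_num) (by norm_num) (by norm_num) _)

private theorem cTcUcT {m : ℕ} (p : Pt m) :
    cT (cU (cT p)) = (mob 1 15 (-2) 2 (-45) p.2, mob 1 45 (-2) 2 (-15) p.1) := by
  rw [cUcT, cT_eq]
  exact Prod.ext (mm _ 1 _ _ _ _ _ _ _ _ _ _ _ _ (by norm_num) (by norm_num) (by norm_num) (by norm_num) (by norm_num) (by norm_num) (by norm_num) (by norm_num) _)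
    (mm _ 1 _ _ _ _ _ _ _ _ _ _ _ _ (by norm_num) (by norm_num) (by norm_num) (by norm_num) (by norm_num) (by norm_num) (by norm_num) (by norm_num) _)

private theorem cUcTcU {m : ℕ} (p : Pt m) :
    cU (cT (cU p)) = (mob 1 15 (-2) 2 (-45) p.2, mob 1 45 (-2) 2 (-15) p.1) := by
  rw [cTcU, cU_eq]
  exact Prod.ext (mm _ (-1) _ _ _ _ _ _ _ _ _ _ _ _ (by norm_num) (by norm_num) (by norm_num) (by norm_num) (by norm_num) (by norm_num) (by norm_num) (by norm_num) _)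
    (mm _ (-1) _ _ _ _ _ _ _ _ _ _ _ _ (by norm_num) (by norm_num) (by norm_num) (by norm_num) (by norm_num) (by norm_num) (by norm_num) (by norm_num) _)

/-- Module TYP. -/
theorem hTyp : HTyp := by
  intro m
  have hsw : Ty 1 (sw : Pt m → Pt m) :=
    Or.inr ⟨rfl, 1, 1, _, _, by norm_num, by norm_num, dv_id, dv_id, fun p => rfl⟩
  refine ⟨⟨⟨?_, fun _ => rfl, fun _ => rfl⟩, ?_, hsw, ?_⟩,
    ⟨⟨dRdR 0, cO_inv, fun p => (dRcO p).trans (cOdR p).symm⟩,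
      (ty0 _ 0 12 12 _ _ _ _ _ _ _ _ (by norm_num) (by norm_num) (by norm_num) (by norm_num) (by norm_num) (by norm_num) (by norm_num) (by norm_num) (dR_eq 0)),
      (ty1 _ 0 10 4 _ _ _ _ _ _ _ _ (by norm_num) (by norm_num) (by norm_num) (by norm_num) (by norm_num) (by norm_num) cO_eq),
      (ty1 _ 0 3 9 _ _ _ _ _ _ _ _ (by norm_num) (by norm_num) (by norm_num) (by norm_num) (by norm_num) (by norm_num) dRcO)⟩,
    ⟨⟨fun _ => rfl, c3_inv, fun p => (swc3sw p).trans (c3swc3 p).symm⟩, hsw,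
      (ty1 _ 0 3 9 _ _ _ _ _ _ _ _ (by norm_num) (by norm_num) (by norm_num) (by norm_num) (by norm_num) (by norm_num) c3_eq),
      (ty0 _ 0 9 3 _ _ _ _ _ _ _ _ (by norm_num) (by norm_num) (by norm_num) (by norm_num) (by norm_num) (by norm_num) (by norm_num) (by norm_num) swc3),
      (ty0 _ 0 3 9 _ _ _ _ _ _ _ _ (by norm_num) (by norm_num) (by norm_num) (by norm_num) (by norm_num) (by norm_num) (by norm_num) (by norm_num) c3sw),
      (ty1 _ 0 9 3 _ _ _ _ _ _ _ _ (by norm_num) (by norm_num) (by norm_num) (by norm_num) (by norm_num) (by norm_num) swc3sw)⟩,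
    ⟨⟨c3_inv, cO_inv, fun p => (c3cO p).trans (cOc3 p).symm⟩,
      (ty0 _ 0 12 12 _ _ _ _ _ _ _ _ (by norm_num) (by norm_num) (by norm_num) (by norm_num) (by norm_num) (by norm_num) (by norm_num) (by norm_num) c3cO)⟩,
    ⟨⟨dRdR 1, c6_inv, fun p => (dRc6 p).trans (c6dR p).symm⟩,
      (ty0 _ 1 12 12 _ _ _ _ _ _ _ _ (by norm_num) (by norm_num) (by norm_num) (by norm_num) (by norm_num) (by norm_num) (by norm_num) (by norm_num) (dR_eq 1)),
      (ty1 _ 1 10 4 _ _ _ _ _ _ _ _ (by norm_num) (by norm_num) (by norm_num) (by norm_num) (by norm_num) (by norm_num) c6_eq),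
      (ty1 _ 1 3 9 _ _ _ _ _ _ _ _ (by norm_num) (by norm_num) (by norm_num) (by norm_num) (by norm_num) (by norm_num) dRc6)⟩,
    ⟨⟨cT_inv, cU_inv, fun p => (cTcUcT p).trans (cUcTcU p).symm⟩,
      (ty1 _ 1 12 12 _ _ _ _ _ _ _ _ (by norm_num) (by norm_num) (by norm_num) (by norm_num) (by norm_num) (by norm_num) cT_eq),
      (ty1 _ 1 4 10 _ _ _ _ _ _ _ _ (by norm_num) (by norm_num) (by norm_num) (by norm_num) (by norm_num) (by norm_num) cU_eq),
      (ty0 _ 1 3 9 _ _ _ _ _ _ _ _ (by norm_num) (by norm_num) (by norm_num) (by norm_num) (by norm_num) (by norm_num) (by norm_num) (by norm_num) cTcU),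
      (ty0 _ 1 9 3 _ _ _ _ _ _ _ _ (by norm_num) (by norm_num) (by norm_num) (by norm_num) (by norm_num) (by norm_num) (by norm_num) (by norm_num) cUcT),
      (ty1 _ 1 10 4 _ _ _ _ _ _ _ _ (by norm_num) (by norm_num) (by norm_num) (by norm_num) (by norm_num) (by norm_num) cTcUcT)⟩,
    ⟨⟨cQ_inv, cR_inv, fun p => (cQcR p).trans (cRcQ p).symm⟩,
      (ty1 _ 1 12 12 _ _ _ _ _ _ _ _ (by norm_num) (by norm_num) (by norm_num) (by norm_num) (by norm_num) (by norm_num) cQ_eq),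
      (ty1 _ 1 1 1 _ _ _ _ _ _ _ _ (by norm_num) (by norm_num) (by norm_num) (by norm_num) (by norm_num) (by norm_num) cR_eq),
      (ty0 _ 1 12 12 _ _ _ _ _ _ _ _ (by norm_num) (by norm_num) (by norm_num) (by norm_num) (by norm_num) (by norm_num) (by norm_num) (by norm_num) cQcR)⟩,
    ⟨⟨cM_inv, (ty1 _ 1 3 9 _ _ _ _ _ _ _ _ (by norm_num) (by norm_num) (by norm_num) (by norm_num) (by norm_num) (by norm_num) cM_eq)⟩,
      ⟨cC_inv, (ty1 _ 1 9 3 _ _ _ _ _ _ _ _ (by norm_num) (by norm_num) (by norm_num) (by norm_num) (by norm_num) (by norm_num) cC_eq)⟩,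
      ⟨cD_inv, (ty1 _ 1 4 10 _ _ _ _ _ _ _ _ (by norm_num) (by norm_num) (by norm_num) (by norm_num) (by norm_num) (by norm_num) cD_eq)⟩,
      ⟨rA_inv, (ty1 _ 1 1 1 _ _ _ _ _ _ _ _ (by norm_num) (by norm_num) (by norm_num) (by norm_num) (by norm_num) (by norm_num) rA_eq)⟩,
      ⟨rB_inv, (ty1 _ 1 10 4 _ _ _ _ _ _ _ _ (by norm_num) (by norm_num) (by norm_num) (by norm_num) (by norm_num) (by norm_num) rB_eq)⟩,
      (ty1 _ 1 3 9 _ _ _ _ _ _ _ _ (by norm_num) (by norm_num) (by norm_num) (by norm_num) (by norm_num) (by norm_num) c9_eq)⟩,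
    ⟨(tyw _ 1 1 1 _ _ _ _ _ _ _ _ (by norm_num) (by norm_num) (by norm_num) (by norm_num) (by norm_num) (by norm_num) gM_eq),
      (tyw _ 1 1 1 _ _ _ _ _ _ _ _ (by norm_num) (by norm_num) (by norm_num) (by norm_num) (by norm_num) (by norm_num) gB_eq),
      (ty1 _ 1 9 3 _ _ _ _ _ _ _ _ (by norm_num) (by norm_num) (by norm_num) (by norm_num) (by norm_num) (by norm_num) gF_eq)⟩,
    fun p => ⟨rfl, rfl⟩⟩
  · intro p
    simp [ng]
  · exact Or.inl ⟨rfl, -1, -1, _, _, by norm_num, by norm_num, by norm_num, by norm_num, dv_neg,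
      dv_neg, fun p => rfl⟩
  · exact Or.inr ⟨rfl, -1, -1, _, _, by norm_num, by norm_num, dv_neg, dv_neg, fun p => rfl⟩

end Pool.Agent.Helper72.P13
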